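import Mathlib
import Pool.Agent.Helper76.MX.Main

/-!
Closed manifolds glued from double covers of alternating tangles, a pair of peripheral elements of
which has mixed torsion, one crossing ball next to the free ball being filled with any slope.
-/

set_option autoImplicit false

namespace Pool.Agent.Results.MP_9ae2f3_gt.MixedTorsion

open Pool.Agent.Helper42.Th hiding Fill
open Pool.Agent.Helper89.GS2 (Near Words)
open Pool.Agent.Helper76.MX

/-- Let `G` be generated by elements which satisfy the relations of the fundamental group of the
double branched cover of a diagram, all crossing balls of which are filled with positive slopes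
(by solid tori, by pieces with an interval of slopes or by pieces with mixed torsion), except the
ball of `δ` and the ball of `ε`, which has a vertex or a face in common with it and which is
filled with any slope.  If there is no ball `ε` and the ball of `δ` is filled with a positive
slope too, or if two words `l`, `c` in the peripheral elements of the ball of `δ` have mixed
torsion and this ball is filled with a slope between `l` and `c⁻¹`, then `G` is not
left-orderable. -/
theorem result {E : Type} [Finite E] {G : Type*} [Group G] (Γ : CMap E) (L : Lab G Γ) (δ ε : E)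
    (hε : Near Γ δ ε) (P : Set E) (m a : E → G) (F : E → Set G) (F₀ : Set G)
    (hP : ∀ d, d ≠ δ → d ≠ Γ.flip δ → d ∈ P ∨ Γ.flip d ∈ P)
    (hw : ∀ d ∈ P, Words L ε d (m d) (a d)) (hF : ∀ d ∈ P, Fill (m d) (a d) (F d))
    (h : (ε = δ ∧ Fill (L.M δ) (L.D δ) F₀) ∨ ∃ l c : G, Pair L δ l c ∧ Fill l c F₀ ∧
      Torsion ((L.elts ∪ ⋃ d ∈ P, F d) ∪ F₀) l c)
    (hgen : Subgroup.closure ((L.elts ∪ ⋃ d ∈ P, F d) ∪ F₀) = ⊤) :
    ¬ (Nontrivial G ∧ ∃ _ : LinearOrder G, ∀ f g h : G, g ≤ h → f * g ≤ f * h) :=
  main Γ L δ ε P F m a F₀ hε hP hw hF h hgen

end Pool.Agent.Results.MP_9ae2f3_gt.MixedTorsion
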