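import Mathlib
import Pool.Agent.Helper89.TL.Main

/-!
Double covers branched along links, cut along tori into double covers of alternating diagrams
without one crossing ball: the slopes of every piece lie in an interval, the ends of which are
given by dissections of rectangles, and if the two sides of a torus have disjoint intervals, the
fundamental group is not left-orderable.
-/

set_option autoImplicit false

namespace Pool.Agent.Results.MP_9ae2f3_gt.SquaredRectangles

open Pool.Agent.Helper42.Th (CMap Lab)
open Pool.Agent.Helper24.T8 (dual)
open Pool.Agent.Helper89.TL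

/-- Let `G` be generated by elements which satisfy the relations of the fundamental group of a
closed manifold glued along a tree from pieces: double branched covers of alternating diagrams
all crossing balls of which but one are filled.  The slopes of a piece at the open ball lie
between `q / p` and `p' / q'`, where each end is trivial (`q = 0`, `q' = 0`) or given by a
dissection of a rectangle (`Low`).  If the gluings respect these intervals, `G` is not
left-orderable: words in the peripheral elements which are positive on the interval of one side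
are negative on the interval of the other side. -/
theorem result {E : Type} [Finite E] {G : Type*} [Group G] (Γ : CMap E) (L : Lab G Γ) (δ : E)
    (P : Set E) (F : E → Set G) (F₀ : Set G) (q p q' p' : ℕ) (A B C D : ℤ)
    (hP : ∀ d, d ≠ δ → d ≠ Γ.flip δ → d ∈ P ∨ Γ.flip d ∈ P)
    (hpos : ∀ d ∈ P, Fill true (L.M d) (L.D d) (F d))
    (h₁ : Low Γ L δ q p) (h₂ : Low Γ.dual (dual L) δ q' p')
    (hAB : A ≠ 0 ∨ B ≠ 0) (h1 : 0 ≤ A * q + B * p) (h2 : 0 ≤ A * p' + B * q')
    (h3 : 0 < C * q + D * p) (h4 : 0 < C * p' + D * q')
    (hneg : Fill false (L.M δ ^ A * (L.D δ)⁻¹ ^ B) (L.M δ ^ C * (L.D δ)⁻¹ ^ D)⁻¹ F₀)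
    (hgen : Subgroup.closure ((L.elts ∪ ⋃ d ∈ P, F d) ∪ F₀) = ⊤) :
    ¬ (Nontrivial G ∧ ∃ _ : LinearOrder G, ∀ f g h : G, g ≤ h → f * g ≤ f * h) :=
  main hP hpos h₁ h₂ hAB h1 h2 h3 h4 hneg hgen

end Pool.Agent.Results.MP_9ae2f3_gt.SquaredRectangles
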